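import Pool.Agent.Run7.h450.CS.Iface
/-! Project CL (helper450), piece GAM. -/
set_option autoImplicit false
open Matrix

namespace Run7.h646.CL
open Run7.h450.CL

section
variable {K : Type} [Fintype K] [DecidableEq K] {m : ℕ}

/-- pass `γ j` through a word -/
lemma pass {γ : Fin m → Matrix K K ℂ} (h : Cl γ) (j : Fin m) (L : List (Fin m)) :
    γ j * (L.map γ).prod = (-1 : ℂ) ^ (L.length + L.count j) • ((L.map γ).prod * γ j) := by
  induction L with
  | nil => simp
  | cons k L ih =>
    rw [List.map_cons, List.prod_cons]
    by_cases hk : k = j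
    · subst hk
      have e : (k :: L).length + (k :: L).count k = L.length + L.count k + 2 := by
        rw [List.length_cons, List.count_cons_self]; ring
      rw [e, pow_add, mul_assoc (γ k) (L.map γ).prod (γ k), ih, mul_smul_comm]
      norm_num
    · have e : (k :: L).length + (k :: L).count j = L.length + L.count j + 1 := by
        rw [List.length_cons, List.count_cons_of_ne hk]; ring
      rw [e, pow_succ, ← mul_assoc, h.anti j k (Ne.symm hk), neg_mul, mul_assoc, ih, mul_smul_comm,
        mul_assoc]
      simp

lemma pass' {γ : Fin m → Matrix K K ℂ} (h : Cl γ) (j : Fin m) (L : List (Fin m)) :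
    (L.map γ).prod * γ j = γ j * (L.map γ).prod ∨
      (L.map γ).prod * γ j = -(γ j * (L.map γ).prod) := by
  have := pass h j L
  rcases neg_one_pow_eq_or ℂ (L.length + L.count j) with h1 | h1
  · left
    rw [this, h1, one_smul]
  · right
    rw [this, h1, neg_smul, one_smul, neg_neg]

lemma sq_word {γ : Fin m → Matrix K K ℂ} (h : Cl γ) (L : List (Fin m)) :
    (L.map γ).prod * (L.map γ).prod = 1 ∨ (L.map γ).prod * (L.map γ).prod = -1 := by
  induction L with
  | nil => left; simp
  | cons k L ih =>
    rw [List.map_cons, List.prod_cons]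
    set P := (L.map γ).prod with hP
    have e : γ k * P * (γ k * P) = γ k * (P * γ k) * P := by simp only [mul_assoc]
    rw [e]
    rcases pass' h k L with h1 | h1
    · have e2 : γ k * (P * γ k) * P = P * P := by
        rw [hP, h1, ← mul_assoc, h.sq, one_mul]
      rw [e2]
      exact ih
    · have e2 : γ k * (P * γ k) * P = -(P * P) := by
        rw [hP, h1, mul_neg, ← mul_assoc, h.sq, one_mul, neg_mul]
      rw [e2]
      rcases ih with h2 | h2
      · right; rw [h2]
      · left; rw [h2, neg_neg]

end

theorem t_GAM : S_GAM := by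
  intro K _ _ p γ hp h
  have hG : Gam γ = ((List.finRange (p + 1)).map γ).prod := by
    unfold Gam wd
    rw [List.ofFn_eq_map]
  rw [hG]
  refine ⟨fun j => ?_, sq_word h _⟩
  have h1 := pass h j (List.finRange (p + 1))
  rw [List.length_finRange, List.count_eq_one_of_mem (List.nodup_finRange _)
    (List.mem_finRange j)] at h1
  have hodd : Odd (p + 1 + 1) := by
    have : Odd (p + 2) := by
      rcases hp with ⟨k, rfl⟩
      exact ⟨k + 1, by ring⟩
    exact this
  rw [hodd.neg_one_pow, neg_smul, one_smul] at h1
  rw [h1, neg_neg]

end Run7.h646.CL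

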